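import Pool.Agent.Helper20.EP.Spec2

set_option autoImplicit false

open Polynomial

namespace Pool.Agent.Helper50.EP

open Pool.Agent.Helper20.EP

/-! ### coefficients of products of linear factors -/

theorem coeff_step (p : ℂ[X]) (a : ℂ) (j : ℕ) :
    ((X - C a) * p).coeff j = (X * p).coeff j - a * p.coeff j := by
  rw [sub_mul, coeff_sub, coeff_C_mul]

theorem coeff_bd {ι : Type} [DecidableEq ι] (a : ι → ℂ) (B : ℝ) (hB : 0 ≤ B) (O : Finset ι)
    (h : ∀ i ∈ O, ‖a i‖ ≤ B) : ∀ j, ‖(∏ i ∈ O, (X - C (a i))).coeff j‖ ≤ (1 + B) ^ O.card := by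
  induction O using Finset.induction_on with
  | empty =>
    intro j
    simp only [Finset.prod_empty, Finset.card_empty, pow_zero, coeff_one]
    split_ifs <;> simp
  | insert i O hi ih =>
    intro j
    have ih' := ih (fun k hk => h k (Finset.mem_insert_of_mem hk))
    rw [Finset.prod_insert hi, Finset.card_insert_of_notMem hi, coeff_step, pow_succ]
    have h1 : ‖(X * ∏ k ∈ O, (X - C (a k))).coeff j‖ ≤ (1 + B) ^ O.card := by
      rcases j with _ | j
      · simp only [mul_coeff_zero, coeff_X_zero, zero_mul, norm_zero]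
        positivity
      · rw [coeff_X_mul]
        exact ih' j
    have h2 := ih' j
    have h3 := h i (Finset.mem_insert_self _ _)
    calc ‖(X * ∏ k ∈ O, (X - C (a k))).coeff j - a i * (∏ k ∈ O, (X - C (a k))).coeff j‖
        ≤ ‖(X * ∏ k ∈ O, (X - C (a k))).coeff j‖ + ‖a i * (∏ k ∈ O, (X - C (a k))).coeff j‖ :=
          norm_sub_le _ _
      _ ≤ (1 + B) ^ O.card + B * (1 + B) ^ O.card := by
          rw [norm_mul]
          gcongr
      _ = (1 + B) ^ O.card * (1 + B) := by ring

theorem coeff_diff {ι : Type} [DecidableEq ι] (a : ι → ℂ → ℂ) (U : Set ℂ) (O : Finset ι)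
    (h : ∀ i ∈ O, DifferentiableOn ℂ (a i) U) :
    ∀ j, DifferentiableOn ℂ (fun w => (∏ i ∈ O, (X - C (a i w))).coeff j) U := by
  induction O using Finset.induction_on with
  | empty =>
    intro j
    simp only [Finset.prod_empty]
    exact differentiableOn_const _
  | insert i O hi ih =>
    intro j
    have ih' := ih (fun k hk => h k (Finset.mem_insert_of_mem hk))
    simp only [Finset.prod_insert hi, coeff_step]
    apply DifferentiableOn.sub
    · rcases j with _ | j
      · simp only [mul_coeff_zero, coeff_X_zero, zero_mul]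
        exact differentiableOn_const _
      · simp only [coeff_X_mul]
        exact ih' j
    · exact (h i (Finset.mem_insert_self _ _)).mul (ih' j)

/-! ### the parameter as a polynomial of the root -/

/-- `w` is a polynomial of degree `d` in a root of `monC F w` -/
theorem nu (F : ℤ[X]) (d : ℕ) (hd : 1 ≤ d) (hF : F.natDegree = d) :
    ∃ ν : ℂ[X], ν.natDegree ≤ d ∧ ∀ w y : ℂ, (monC F w).eval y = 0 → ν.eval y = w := by
  set G : ℂ[X] := F.map (Int.castRingHom ℂ) with hG
  have hF0 : F ≠ 0 := by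
    rintro rfl
    simp at hF
    omega
  have hb : (F.leadingCoeff : ℂ) ≠ 0 := by
    exact_mod_cast leadingCoeff_ne_zero.mpr hF0
  have hinj : Function.Injective (Int.castRingHom ℂ) := RingHom.injective_int _
  have hGd : G.natDegree = d := by
    rw [hG, natDegree_map_eq_of_injective hinj, hF]
  have hGl : G.leadingCoeff = (F.leadingCoeff : ℂ) := by
    rw [hG, leadingCoeff_map_of_injective hinj]
    rfl
  refine ⟨G.comp (C (F.leadingCoeff : ℂ)⁻¹ * X), ?_, ?_⟩
  · refine natDegree_comp_le.trans ?_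
    rw [hGd]
    have : (C (F.leadingCoeff : ℂ)⁻¹ * X : ℂ[X]).natDegree ≤ 1 :=
      (natDegree_C_mul_le _ _).trans natDegree_X_le
    calc d * (C (F.leadingCoeff : ℂ)⁻¹ * X : ℂ[X]).natDegree ≤ d * 1 := Nat.mul_le_mul_left _ this
      _ = d := mul_one d
  · intro w y h
    have hnd : (G - C w).natDegree = d := by rw [natDegree_sub_C, hGd]
    have hlc : (G - C w).leadingCoeff = (F.leadingCoeff : ℂ) := by
      rw [← hGl, leadingCoeff, leadingCoeff, hnd, hGd, coeff_sub, coeff_C,
        if_neg (by omega), sub_zero]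
    have h1 := integralNormalization_eval₂_leadingCoeff_mul (p := G - C w) (by rw [hnd]; exact hd)
      (RingHom.id ℂ) ((F.leadingCoeff : ℂ)⁻¹ * y)
    rw [hlc] at h1
    simp only [RingHom.id_apply] at h1
    rw [← mul_assoc, mul_inv_cancel₀ hb, one_mul] at h1
    have h2 : eval₂ (RingHom.id ℂ) y (G - C w).integralNormalization = 0 := by
      rw [← eval]
      exact h
    rw [h2] at h1
    have h3 : eval₂ (RingHom.id ℂ) ((F.leadingCoeff : ℂ)⁻¹ * y) (G - C w) = 0 := by
      rcases mul_eq_zero.mp h1.symm with h | h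
      · exact absurd h (pow_ne_zero _ hb)
      · exact h
    rw [← eval, eval_sub, eval_C] at h3
    rw [eval_comp]
    simp only [eval_mul, eval_C, eval_X]
    linear_combination h3

/-! ### a monic factor is a product over a set of labels -/

theorem factor_labels {d : ℕ} (a : Fin d → ℂ) (ha : Function.Injective a) (f g : ℂ[X])
    (hf : f.Monic) (hg : g.Monic) (hfg : f * g = ∏ i, (X - C (a i))) :
    ∃ O : Finset (Fin d), f = ∏ i ∈ O, (X - C (a i)) := by
  classical
  set O : Finset (Fin d) := Finset.univ.filter (fun i => f.eval (a i) = 0) with hO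
  refine ⟨O, ?_⟩
  have key : ∀ (A : Finset (Fin d)) (q : ℂ[X]), (∀ i ∈ A, q.eval (a i) = 0) →
      (∏ i ∈ A, (X - C (a i))) ∣ q := by
    intro A q hq
    apply Finset.prod_dvd_of_coprime
    · intro i _ j _ hij
      exact isCoprime_X_sub_C_of_isUnit_sub (sub_ne_zero.mpr (fun h => hij (ha h))).isUnit
    · intro i hi
      exact dvd_iff_isRoot.mpr (hq i hi)
  have h1 := key O f (fun i hi => (Finset.mem_filter.mp hi).2)
  have h2 := key Oᶜ g (fun i hi => by
    have h3 : (f * g).eval (a i) = 0 := by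
      rw [hfg, eval_prod]
      exact Finset.prod_eq_zero (Finset.mem_univ i) (by simp)
    rw [eval_mul] at h3
    rcases mul_eq_zero.mp h3 with h | h
    · exact absurd (Finset.mem_filter.mpr ⟨Finset.mem_univ i, h⟩) (Finset.mem_compl.mp hi)
    · exact h)
  have hm1 : (∏ i ∈ O, (X - C (a i))).Monic := monic_prod_of_monic _ _ (fun i _ => monic_X_sub_C _)
  have hm2 : (∏ i ∈ Oᶜ, (X - C (a i))).Monic :=
    monic_prod_of_monic _ _ (fun i _ => monic_X_sub_C _)
  have d1 := natDegree_le_of_dvd h1 hf.ne_zero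
  have d2 := natDegree_le_of_dvd h2 hg.ne_zero
  have e1 : (∏ i ∈ O, (X - C (a i))).natDegree = O.card := by
    rw [natDegree_prod_of_monic _ _ (fun i _ => monic_X_sub_C _)]
    simp
  have e2 : (∏ i ∈ Oᶜ, (X - C (a i))).natDegree = Oᶜ.card := by
    rw [natDegree_prod_of_monic _ _ (fun i _ => monic_X_sub_C _)]
    simp
  have e3 : (f * g).natDegree = d := by
    rw [hfg, natDegree_prod_of_monic _ _ (fun i _ => monic_X_sub_C _)]
    simp
  rw [hf.natDegree_mul hg] at e3
  have e4 : O.card + Oᶜ.card = d := by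
    rw [Finset.card_add_card_compl, Fintype.card_fin]
  exact (eq_of_monic_of_dvd_of_natDegree_le hm1 hf h1 (by omega)).symm ▸ rfl

/-! ### the main statement -/

theorem irr (hMON : S_MON) (hDET : S_DET) : S_IRR := by
  classical
  intro d hd
  obtain ⟨m, c, hc0, hc1, hD⟩ := hDET (4 * d)
  refine ⟨c, hc0, hc1, ?_⟩
  intro ρ hρ
  obtain ⟨C₁, M₁, hD⟩ := hD ρ (d + 1) (m * d + d) hρ
  refine ⟨(2 : ℝ) ^ d * |C₁|, max M₁ 2, ?_⟩
  intro F M c₀ ξ S hL hM hS hirr
  have hM2 : (2 : ℝ) ≤ M := (le_max_right _ _).trans hM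
  have hM0 : (0 : ℝ) < M := by linarith
  have hM1 : M₁ ≤ M := (le_max_left _ _).trans hM
  have hball : ∀ s ∈ S, ((s : ℤ) : ℂ) ∈ Metric.ball (c₀ : ℂ) (ρ * M) := by
    intro s hs
    rw [Metric.mem_ball, dist_eq_norm]
    have h1 := hS s hs
    have h2 : (((s : ℤ) : ℂ) - (c₀ : ℂ)) = (((s : ℝ) - c₀ : ℝ) : ℂ) := by push_cast; ring
    rw [h2, Complex.norm_real, Real.norm_eq_abs]
    have : 0 < ρ * M := by positivity
    linarith
  obtain ⟨ν, hνd, hν⟩ := nu F d hd hL.deg
  -- the sets
  set SO : Finset (Fin d) → Finset ℤ := fun O =>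
    S.filter (fun s => ∃ f : ℤ[X], f.map (Int.castRingHom ℂ) = ∏ i ∈ O, (X - C (ξ i (s : ℂ))))
    with hSO
  have hcover : S ⊆ (Finset.univ.filter (fun O : Finset (Fin d) => O.Nonempty ∧ O ≠ Finset.univ)).biUnion
      SO := by
    intro s hs
    obtain ⟨hmon, hnd, hmap, _⟩ := hMON F s (by rw [hL.deg]; exact hd)
    have h1 := hirr s hs
    rw [hmon.irreducible_iff_natDegree] at h1
    have h2 : mon F s ≠ 1 := by
      intro h
      rw [h, natDegree_one, hL.deg] at hnd
      omega
    push Not at h1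
    obtain ⟨f, g, hf, hg, hfg, hf0, hg0⟩ := h1 h2
    have h3 : f.map (Int.castRingHom ℂ) * g.map (Int.castRingHom ℂ) =
        ∏ i, (X - C (ξ i (s : ℂ))) := by
      rw [← Polynomial.map_mul, hfg, hmap, hL.roots _ (hball s hs)]
    obtain ⟨O, hO⟩ := factor_labels (fun i => ξ i (s : ℂ)) (hL.inj _ (hball s hs)) _ _
      (hf.map _) (hg.map _) h3
    have hOc : O.card = f.natDegree := by
      have e1 : (f.map (Int.castRingHom ℂ)).natDegree = f.natDegree :=
        hf.natDegree_map _
      rw [hO, natDegree_prod_of_monic _ _ (fun i _ => monic_X_sub_C _)] at e1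
      simpa using e1
    have hdeg : f.natDegree + g.natDegree = d := by
      rw [← hf.natDegree_mul hg, hfg, hnd, hL.deg]
    rw [Finset.mem_biUnion]
    refine ⟨O, ?_, ?_⟩
    · rw [Finset.mem_filter]
      refine ⟨Finset.mem_univ _, ?_, ?_⟩
      · rw [← Finset.card_pos]; omega
      · intro h
        rw [h, Finset.card_univ, Fintype.card_fin] at hOc
        omega
    · rw [hSO, Finset.mem_filter]
      exact ⟨hs, f, hO⟩
  -- every set is small
  have hsmall : ∀ O : Finset (Fin d), O.Nonempty → O ≠ Finset.univ →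
      ((SO O).card : ℝ) ≤ C₁ * M ^ (1 - c) := by
    intro O hO1 hO2
    by_contra hcon
    push Not at hcon
    have hSOS : SO O ⊆ S := Finset.filter_subset _ _
    obtain ⟨Q, S', hS', hDc, hQ⟩ := hD M c₀
      (fun (j : Fin (d + 1)) w => (∏ i ∈ O, (X - C (ξ i w))).coeff (j : ℕ)) (SO O) hM1
      (fun j => coeff_diff ξ _ O (fun i _ => hL.diff i) j)
      (fun j w hw => by
        have h1 := coeff_bd (fun i => ξ i w) (M ^ 3) (by positivity) O
          (fun i _ => hL.bd i w hw) j
        refine h1.trans ?_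
        have h2 : 1 + M ^ 3 ≤ M ^ 4 := by nlinarith [pow_pos hM0 3, pow_le_pow_left₀ (by norm_num) hM2 3]
        have h3 : (1 : ℝ) ≤ 1 + M ^ 3 := by nlinarith [pow_pos hM0 3]
        have h4 : O.card ≤ d := by
          have := Finset.card_le_univ O
          rwa [Fintype.card_fin] at this
        calc (1 + M ^ 3) ^ O.card ≤ (1 + M ^ 3) ^ d := pow_le_pow_right₀ h3 h4
          _ ≤ (M ^ 4) ^ d := pow_le_pow_left₀ (by positivity) h2 d
          _ = M ^ (4 * d) := by rw [← pow_mul])
      (fun s hs => hS s (hSOS hs))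
      (fun s hs j => by
        obtain ⟨f, hf⟩ := (Finset.mem_filter.mp hs).2
        refine ⟨f.coeff j, ?_⟩
        rw [← hf, coeff_map]
        rfl)
      hcon
    -- the polynomial in the root
    set H : ℂ[X] := ∑ j : Fin (d + 1), (((Q j).map (algebraMap ℚ ℂ)).comp ν) * X ^ (j : ℕ) with hH
    have hHd : H.natDegree ≤ m * d + d := by
      apply natDegree_sum_le_of_forall_le
      intro j _
      refine natDegree_mul_le.trans ?_
      have h1 : (((Q j).map (algebraMap ℚ ℂ)).comp ν).natDegree ≤ m * d := by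
        refine natDegree_comp_le.trans ?_
        exact Nat.mul_le_mul (natDegree_map_le.trans (hQ j).1) hνd
      have h2 : (X ^ (j : ℕ) : ℂ[X]).natDegree ≤ d := by
        rw [natDegree_X_pow]
        have := j.2
        omega
      omega
    have hHe : ∀ s ∈ S', ∀ i, H.eval (ξ i (s : ℂ)) = ∏ k ∈ O, (ξ i (s : ℂ) - ξ k (s : ℂ)) := by
      intro s hs i
      have hsS : s ∈ S := hSOS (hS' hs)
      have hroot : (monC F (s : ℂ)).eval (ξ i (s : ℂ)) = 0 := by
        rw [hL.roots _ (hball s hsS), eval_prod]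
        exact Finset.prod_eq_zero (Finset.mem_univ i) (by simp)
      have hνs := hν (s : ℂ) (ξ i (s : ℂ)) hroot
      have hG : (∏ k ∈ O, (X - C (ξ k (s : ℂ)))).eval (ξ i (s : ℂ)) =
          ∏ k ∈ O, (ξ i (s : ℂ) - ξ k (s : ℂ)) := by
        rw [eval_prod]; simp
      have hlt : (∏ k ∈ O, (X - C (ξ k (s : ℂ)))).natDegree < d + 1 := by
        rw [natDegree_prod_of_monic _ _ (fun i _ => monic_X_sub_C _)]
        simp only [natDegree_X_sub_C, Finset.sum_const, smul_eq_mul, mul_one]
        have := Finset.card_le_univ O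
        rw [Fintype.card_fin] at this
        omega
      have hGe := eval_eq_sum_range' hlt (ξ i (s : ℂ))
      rw [← hG, hGe, hH, eval_finsetSum, Finset.sum_range]
      apply Finset.sum_congr rfl
      intro j _
      rw [eval_mul, eval_pow, eval_X, eval_comp, hνs]
      congr 1
      have := (hQ j).2 s hs
      rw [this, aeval_def, eval_map]
    obtain ⟨i₀, hi₀⟩ := hO1
    have hH0 : H = 0 := by
      have hinj : Set.InjOn (fun s : ℤ => ξ i₀ (s : ℂ)) (S' : Set ℤ) := by
        intro s hs t ht hst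
        have e1 := hν (s : ℂ) (ξ i₀ (s : ℂ)) (by
          rw [hL.roots _ (hball s (hSOS (hS' hs))), eval_prod]
          exact Finset.prod_eq_zero (Finset.mem_univ i₀) (by simp))
        have e2 := hν (t : ℂ) (ξ i₀ (t : ℂ)) (by
          rw [hL.roots _ (hball t (hSOS (hS' ht))), eval_prod]
          exact Finset.prod_eq_zero (Finset.mem_univ i₀) (by simp))
        simp only at hst
        rw [hst, e2] at e1
        exact_mod_cast e1.symm
      apply eq_zero_of_natDegree_lt_card_of_eval_eq_zero' H (S'.image (fun s : ℤ => ξ i₀ (s : ℂ)))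
      · intro y hy
        obtain ⟨s, hs, rfl⟩ := Finset.mem_image.mp hy
        rw [hHe s hs i₀]
        exact Finset.prod_eq_zero hi₀ (by simp)
      · rw [Finset.card_image_of_injOn hinj]
        omega
    have hne : S'.Nonempty := by
      rw [← Finset.card_pos]; omega
    obtain ⟨s, hs⟩ := hne
    obtain ⟨i₁, hi₁⟩ : ∃ i, i ∉ O := by
      by_contra hc
      push Not at hc
      exact hO2 (Finset.eq_univ_iff_forall.mpr hc)
    have h1 := hHe s hs i₁
    rw [hH0, eval_zero] at h1
    obtain ⟨k, hk, hk0⟩ := Finset.prod_eq_zero_iff.mp h1.symm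
    have h2 := hL.inj _ (hball s (hSOS (hS' hs))) (sub_eq_zero.mp hk0)
    rw [h2] at hi₁
    exact hi₁ hk
  -- the sum
  have hMp : 0 ≤ M ^ (1 - c) := Real.rpow_nonneg hM0.le _
  have hC : ∀ O ∈ Finset.univ.filter (fun O : Finset (Fin d) => O.Nonempty ∧ O ≠ Finset.univ),
      ((SO O).card : ℝ) ≤ |C₁| * M ^ (1 - c) := by
    intro O hO
    rw [Finset.mem_filter] at hO
    exact (hsmall O hO.2.1 hO.2.2).trans (mul_le_mul_of_nonneg_right (le_abs_self _) hMp)
  have hCM : 0 ≤ |C₁| * M ^ (1 - c) := mul_nonneg (abs_nonneg _) hMp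
  calc (S.card : ℝ) ≤ (((Finset.univ.filter
          (fun O : Finset (Fin d) => O.Nonempty ∧ O ≠ Finset.univ)).biUnion SO).card : ℝ) := by
        exact_mod_cast Finset.card_le_card hcover
    _ ≤ ((∑ O ∈ Finset.univ.filter
          (fun O : Finset (Fin d) => O.Nonempty ∧ O ≠ Finset.univ), (SO O).card : ℕ) : ℝ) := by
        exact_mod_cast Finset.card_biUnion_le
    _ ≤ ∑ O ∈ Finset.univ.filter
          (fun O : Finset (Fin d) => O.Nonempty ∧ O ≠ Finset.univ), |C₁| * M ^ (1 - c) := by
        rw [Nat.cast_sum]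
        exact Finset.sum_le_sum hC
    _ = ((Finset.univ.filter
          (fun O : Finset (Fin d) => O.Nonempty ∧ O ≠ Finset.univ)).card : ℝ) *
          (|C₁| * M ^ (1 - c)) := by
        rw [Finset.sum_const, nsmul_eq_mul]
    _ ≤ (2 : ℝ) ^ d * (|C₁| * M ^ (1 - c)) := by
        apply mul_le_mul_of_nonneg_right _ hCM
        have h1 := Finset.card_filter_le (Finset.univ : Finset (Finset (Fin d)))
          (fun O : Finset (Fin d) => O.Nonempty ∧ O ≠ Finset.univ)
        have h2 : (Finset.univ : Finset (Finset (Fin d))).card = 2 ^ d := by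
          rw [Finset.card_univ, Fintype.card_finset, Fintype.card_fin]
        rw [h2] at h1
        exact_mod_cast h1
    _ = (2 : ℝ) ^ d * |C₁| * M ^ (1 - c) := by ring

end Pool.Agent.Helper50.EP
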